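import Pool.Agent.Helper614.PB3

open Set Filter Topology TopologicalSpace

namespace Pool.Agent.Results.MP_ff24f1_gt.NotStronglyZeroDim

/-- `𝓑` is a pretty base of the space `X`: a base of clopen sets such that whenever countably many
members (the family `𝒞`) are each disjoint from each member of an arbitrary subfamily `𝒟`, some
member `W` contains all members of `𝒞` and misses all members of `𝒟`. -/
structure IsPrettyBase {X : Type*} [TopologicalSpace X] (𝓑 : Set (Set X)) : Prop where
  isBasis : IsTopologicalBasis 𝓑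
  isClopen : ∀ U ∈ 𝓑, IsClopen U
  nested : ∀ 𝒞 ⊆ 𝓑, ∀ 𝒟 ⊆ 𝓑, 𝒞.Countable → (∀ U ∈ 𝒞, ∀ V ∈ 𝒟, Disjoint U V) →
    ∃ W ∈ 𝓑, (∀ U ∈ 𝒞, U ⊆ W) ∧ ∀ V ∈ 𝒟, Disjoint W V

/-- The cotopology of a base `𝓑`: generated by the complements of the closures of its members. -/
abbrev cotopology {X : Type*} [TopologicalSpace X] (𝓑 : Set (Set X)) : TopologicalSpace X :=
  generateFrom {V | ∃ B ∈ 𝓑, V = (closure B)ᶜ}

/-- `X` has a cocompact pretty base: a pretty base whose cotopology is compact. -/
def HasCocompactPrettyBase (X : Type*) [TopologicalSpace X] : Prop :=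
  ∃ 𝓑 : Set (Set X), IsPrettyBase 𝓑 ∧ @CompactSpace X (cotopology 𝓑)

/-- `X` is strongly zero-dimensional: the clopen subsets of the Stone-Cech compactification of `X`
form a base of it. -/
def IsStronglyZeroDimensional (X : Type*) [TopologicalSpace X] : Prop :=
  IsTopologicalBasis {U : Set (StoneCech X) | IsClopen U}

open Pool.Agent.Helper614.PB in
/-- There is a Tychonoff space with a cocompact pretty base that is not strongly
zero-dimensional. -/
theorem result : ∃ (X : Type) (_ : TopologicalSpace X), T35Space X ∧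
    HasCocompactPrettyBase X ∧ ¬ IsStronglyZeroDimensional X := by
  refine ⟨X4, inferInstance, t35 good4, ?_, X4_not_szd⟩
  refine ⟨hat u4 '' Lat u4 R4, ⟨isBasis_lat good4, ?_, ?_⟩, cocompact good4⟩
  · rintro _ ⟨E, hE, rfl⟩; exact isClopen_hat good4 hE
  · intro 𝒞 h𝒞 𝒟 h𝒟 hc hd
    exact nested good4 𝒞 𝒟 h𝒞 h𝒟 hc hd

end Pool.Agent.Results.MP_ff24f1_gt.NotStronglyZeroDim
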